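import Pool.Agent.J4H12.MX.Stm

/-! # Project MX: (PHI), the Frattini subgroup of a pro-`p` group with max is open (helper23) -/

set_option autoImplicit false

universe u

namespace Pool.Agent.J4H23.MX

open Pool.Agent.J4H12.MX

/-- a normal subgroup of prime index contains the commutators and the `p`-th powers -/
theorem key {G : Type u} [Group G] {p : ℕ} (hp : p.Prime) {P M : Subgroup G}
    (hidx : M.relIndex P = p) (hnz : Nz P M) :
    (∀ a ∈ P, a ^ p ∈ M) ∧ ∀ a ∈ P, ∀ b ∈ P, a * b * a⁻¹ * b⁻¹ ∈ M := by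
  haveI : Fact p.Prime := ⟨hp⟩
  haveI hn : (M.subgroupOf P).Normal := by
    refine ⟨fun n hn g => ?_⟩
    rw [Subgroup.mem_subgroupOf] at hn ⊢
    exact hnz g g.2 n hn
  have hidx' : (M.subgroupOf P).index = p := hidx
  constructor
  · intro a ha
    have h := Subgroup.pow_index_mem (M.subgroupOf P) ⟨a, ha⟩
    rw [hidx', Subgroup.mem_subgroupOf] at h
    exact h
  · intro a ha b hb
    have hc : Nat.card (P ⧸ M.subgroupOf P) = p := hidx'
    haveI := isCyclic_of_prime_card hc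
    obtain ⟨g, hg⟩ := IsCyclic.exists_generator (α := P ⧸ M.subgroupOf P)
    obtain ⟨i, hi⟩ := Subgroup.mem_zpowers_iff.1 (hg (QuotientGroup.mk (⟨a, ha⟩ : P)))
    obtain ⟨j, hj⟩ := Subgroup.mem_zpowers_iff.1 (hg (QuotientGroup.mk (⟨b, hb⟩ : P)))
    have h1 : (QuotientGroup.mk ((⟨a, ha⟩ : P) * ⟨b, hb⟩ * (⟨a, ha⟩ : P)⁻¹ * (⟨b, hb⟩ : P)⁻¹) :
        P ⧸ M.subgroupOf P) = 1 := by
      rw [QuotientGroup.mk_mul, QuotientGroup.mk_mul, QuotientGroup.mk_mul, QuotientGroup.mk_inv,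
        QuotientGroup.mk_inv, ← hi, ← hj]
      group
    rw [QuotientGroup.eq_one_iff, Subgroup.mem_subgroupOf] at h1
    exact h1

/-- (PHI) -/
theorem t_PHI : S_PHI.{u} := by
  intro G _ _ _ _ _ p P hp hP _ hmax
  classical
  set 𝓜 : Set (Subgroup G) :=
    {M | IsClosed (M : Set G) ∧ M ≤ P ∧ M.relIndex P = p ∧ Nz P M} with h𝓜
  set D : Subgroup G := P ⊓ sInf 𝓜 with hD
  have hDP : D ≤ P := inf_le_left
  have hDM : ∀ M ∈ 𝓜, D ≤ M := fun M hM => inf_le_right.trans (sInf_le hM)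
  have hDcl : IsClosed (D : Set G) := by
    rw [hD, Subgroup.coe_inf, Subgroup.coe_sInf]
    exact hP.inter (isClosed_biInter fun M hM => hM.1)
  have hmem : ∀ g ∈ P, (∀ M ∈ 𝓜, g ∈ M) → g ∈ D := fun g hg h =>
    Subgroup.mem_inf.2 ⟨hg, Subgroup.mem_sInf.2 h⟩
  have hpow : ∀ a ∈ P, a ^ p ∈ D := fun a ha =>
    hmem _ (pow_mem ha _) fun M hM => (key hp hM.2.2.1 hM.2.2.2).1 a ha
  have hcomm : ∀ a ∈ P, ∀ b ∈ P, a * b * a⁻¹ * b⁻¹ ∈ D := fun a ha b hb =>
    hmem _ (mul_mem (mul_mem (mul_mem ha hb) (inv_mem ha)) (inv_mem hb)) fun M hM =>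
      (key hp hM.2.2.1 hM.2.2.2).2 a ha b hb
  -- the maximum condition
  let T := {H : Subgroup G // IsClosed (H : Set G) ∧ H ≤ P}
  have hwf : WellFoundedGT T := by
    rw [wellFoundedGT_iff_monotone_chain_condition]
    intro f
    obtain ⟨n, hn⟩ := hmax (fun k => (f k).1) (fun i j hij => f.2 hij) (fun k => (f k).2.1)
      fun k => (f k).2.2
    exact ⟨n, fun m hm => Subtype.ext (hn m hm).symm⟩
  let S : Set T := {H | D ≤ H.1 ∧ ∃ F : Set G, F.Finite ∧ ∀ h ∈ H.1, ∃ f ∈ F, f⁻¹ * h ∈ D}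
  have hS : S.Nonempty := ⟨⟨D, hDcl, hDP⟩, le_rfl, {1}, Set.finite_singleton _, fun h hh =>
    ⟨1, rfl, by rw [inv_one, one_mul]; exact hh⟩⟩
  obtain ⟨H, ⟨hDH, F, hF, hHF⟩, hHmax⟩ := hwf.wf.has_min S hS
  -- the maximal one is `P`
  have hHP : P ≤ H.1 := by
    intro x hx
    by_contra hxH
    have hnor : ∀ g ∈ P, ∀ h ∈ H.1, g * h * g⁻¹ ∈ H.1 := by
      intro g hg h hh
      have h1 := mul_mem (hDH (hcomm g hg h (H.2.2 hh))) hh
      have h2 : g * h * g⁻¹ * h⁻¹ * h = g * h * g⁻¹ := by group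
      rw [h2] at h1
      exact h1
    let H' : Subgroup G :=
      { carrier := {g | ∃ k : ℤ, ∃ h ∈ H.1, g = x ^ k * h}
        one_mem' := ⟨0, 1, one_mem _, by simp⟩
        mul_mem' := by
          rintro a b ⟨k, h, hh, rfl⟩ ⟨l, h', hh', rfl⟩
          refine ⟨k + l, (x ^ (-l)) * h * (x ^ (-l))⁻¹ * h',
            mul_mem (hnor _ (zpow_mem hx _) h hh) hh', ?_⟩
          rw [zpow_add]
          group
        inv_mem' := by
          rintro a ⟨k, h, hh, rfl⟩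
          refine ⟨-k, x ^ k * h⁻¹ * (x ^ k)⁻¹, hnor _ (zpow_mem hx _) _ (inv_mem hh), ?_⟩
          group }
    have hHH' : H.1 ≤ H' := fun h hh => ⟨0, h, hh, by simp⟩
    have hxH' : x ∈ H' := ⟨1, 1, one_mem _, by simp⟩
    have hH'P : H' ≤ P := by
      rintro g ⟨k, h, hh, rfl⟩
      exact mul_mem (zpow_mem hx _) (H.2.2 hh)
    have hcos : ∀ g ∈ H', ∃ k ∈ Finset.range p, (x ^ k)⁻¹ * g ∈ H.1 := by
      rintro g ⟨k, h, hh, rfl⟩
      have hp0 : (0 : ℤ) < p := by exact_mod_cast hp.pos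
      have h0 := Int.emod_nonneg k hp0.ne'
      have h1 := Int.emod_lt_of_pos k hp0
      refine ⟨(k % p).toNat, Finset.mem_range.2 (by omega), ?_⟩
      have h2 : x ^ (k % p).toNat = x ^ (k % (p : ℤ)) := by
        rw [← zpow_natCast, Int.toNat_of_nonneg h0]
      have h3 : x ^ k = x ^ (k % (p : ℤ)) * (x ^ p) ^ (k / (p : ℤ)) := by
        rw [← zpow_natCast, ← zpow_mul, ← zpow_add]
        congr 1
        exact (Int.emod_add_mul_ediv k p).symm
      rw [h2, h3]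
      have h4 : (x ^ (k % (p : ℤ)))⁻¹ * (x ^ (k % (p : ℤ)) * (x ^ p) ^ (k / (p : ℤ)) * h) =
          (x ^ p) ^ (k / (p : ℤ)) * h := by group
      rw [h4]
      exact mul_mem (zpow_mem (hDH (hpow x hx)) _) hh
    have hH'cl : IsClosed (H' : Set G) := by
      have h1 : (H' : Set G) = ⋃ k ∈ Finset.range p, {g | (x ^ k)⁻¹ * g ∈ H.1} := by
        ext g
        simp only [SetLike.mem_coe, Set.mem_iUnion, Set.mem_ofPred_eq, exists_prop]
        constructor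
        · exact hcos g
        · rintro ⟨k, -, hk⟩
          exact ⟨k, _, hk, by rw [zpow_natCast]; group⟩
      rw [h1]
      refine isClosed_biUnion_finset fun k _ => ?_
      exact H.2.1.preimage (continuous_const.mul continuous_id)
    have hH'S : (⟨H', hH'cl, hH'P⟩ : T) ∈ S := by
      refine ⟨hDH.trans hHH', (fun q : ℕ × G => x ^ q.1 * q.2) '' ((Finset.range p : Set ℕ) ×ˢ F),
        ((Finset.finite_toSet _).prod hF).image _, fun g hg => ?_⟩
      obtain ⟨k, hk, hk2⟩ := hcos g hg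
      obtain ⟨f, hf, hf2⟩ := hHF _ hk2
      refine ⟨x ^ k * f, ⟨(k, f), ⟨hk, hf⟩, rfl⟩, ?_⟩
      rw [mul_inv_rev, mul_assoc]
      exact hf2
    have hlt : H < (⟨H', hH'cl, hH'P⟩ : T) := by
      refine lt_of_le_of_ne hHH' fun h => hxH ?_
      rw [h]
      exact hxH'
    exact hHmax _ hH'S hlt
  -- an open normal subgroup
  have hcl : IsClosed (⋃ f ∈ {f ∈ F | f ∉ D}, {g | f⁻¹ * g ∈ D}) := by
    refine (hF.subset (Set.sep_subset _ _)).isClosed_biUnion fun f _ => ?_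
    exact hDcl.preimage (continuous_const.mul continuous_id)
  have h1 : (1 : G) ∈ (⋃ f ∈ {f ∈ F | f ∉ D}, {g | f⁻¹ * g ∈ D})ᶜ := by
    simp only [Set.mem_compl_iff, Set.mem_iUnion, Set.mem_ofPred_eq, exists_prop, not_exists,
      not_and]
    rintro f ⟨-, hf⟩ h
    rw [mul_one] at h
    exact hf (inv_mem_iff.1 h)
  obtain ⟨N, hN⟩ := ProfiniteGrp.exist_openNormalSubgroup_sub_open_nhds_of_one hcl.isOpen_compl h1
  refine ⟨N.toSubgroup, ⟨N.isNormal', N.isOpen'⟩, fun M hM1 hM2 hM3 hM4 => ?_⟩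
  refine le_trans ?_ (hDM M ⟨hM1, hM2, hM3, hM4⟩)
  rintro g ⟨hgN, hgP⟩
  by_contra hgD
  obtain ⟨f, hf, hf2⟩ := hHF g (hHP hgP)
  refine hN hgN ?_
  simp only [Set.mem_iUnion, Set.mem_ofPred_eq, exists_prop]
  refine ⟨f, ⟨hf, fun hfD => hgD ?_⟩, hf2⟩
  have h2 := mul_mem hfD hf2
  rw [mul_inv_cancel_left] at h2
  exact h2

end Pool.Agent.J4H23.MX
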