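import Pool.Agent.J4H23.MX.Stm

set_option autoImplicit false

namespace Pool.Agent.J4H23.MX

open Finset LaurentPolynomial Pool.Agent.H891R2.Jones Pool.Agent.W639.RB Pool.Agent.Y463.MP Pool.Agent.J4H23.SD

/-- `j` and `k` are consecutive letters at neighbouring places -/
def Adj {m n : ℕ} (c : Fin n → Fin (m-1)) (j k : Fin n) : Prop :=
  (j : ℕ) + 1 = k ∧ ((c j : ℕ) + 1 = c k ∨ (c k : ℕ) + 1 = c j)

open Classical in
/-- the set of the first elements of the pairs -/
noncomputable def JJ {m n : ℕ} (c : Fin n → Fin (m-1)) : Finset (Fin n) :=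
  univ.filter (fun j => ∃ k, Adj c j k)

theorem nx_eq {n : ℕ} {j k : Fin n} (h : (j : ℕ) + 1 = k) : nx j = k := by
  unfold nx
  have hk := k.2
  rw [dif_pos (by omega)]
  exact Fin.ext h

open Classical in
theorem sumJ {m n : ℕ} (c : Fin n → Fin (m-1)) (t : Fin n → ℝ) : 
    ∑ j ∈ JJ c, t j * t (nx j) = ∑ j, ∑ k, if Adj c j k then t j * t k else 0 := by
  unfold JJ
  rw [Finset.sum_filter]
  refine Finset.sum_congr rfl fun j _ => ?_
  by_cases h : ∃ k, Adj c j k
  · rw [if_pos h]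
    obtain ⟨k, hk⟩ := h
    rw [Finset.sum_eq_single k]
    · rw [if_pos hk, nx_eq hk.1]
    · intro b _ hb
      rw [if_neg]
      rintro ⟨h1, -⟩
      exact hb (Fin.ext (by rw [← h1, hk.1]))
    · intro h; exact absurd (Finset.mem_univ _) h
  · rw [if_neg h]
    symm
    refine Finset.sum_eq_zero fun k _ => ?_
    rw [if_neg (fun hk => h ⟨k, hk⟩)]

open Classical in
theorem switches_eq {m n : ℕ} (c : Fin n → Fin (m-1)) (a : Fin n → Bool) (r : Fin n → Bool) : 
    switches (fun i => ((a i, c i) : Letter m)) (univ.filter (fun i => r i = true)) = 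
      ((JJ c).filter (fun j => r j = true ∧ r (nx j) = true)).card := by
  unfold switches JJ
  congr 1
  ext j
  simp only [Finset.mem_filter, Finset.mem_univ, true_and]
  constructor
  · rintro ⟨h, h1, h2, h3⟩
    have e : nx j = ⟨(j:ℕ) + 1, h⟩ := nx_eq rfl
    exact ⟨⟨⟨(j:ℕ) + 1, h⟩, rfl, h3⟩, h1, by rw [e]; exact h2⟩
  · rintro ⟨⟨k, hk, h3⟩, h1, h2⟩
    have hlt : (j:ℕ) + 1 < n := by have := k.2; omega
    have e : k = ⟨(j:ℕ) + 1, hlt⟩ := Fin.ext hk.symm
    subst e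
    have e2 : nx j = ⟨(j:ℕ) + 1, hlt⟩ := nx_eq rfl
    rw [e2] at h2
    exact ⟨hlt, h1, h2, h3⟩

open Classical in
/-- any event whose conditional probabilities are at most `C ρ ^ switches` -/
theorem cond (h1 : S_ONE) (h2 : S_MIX) {m n : ℕ} (c : Fin n → Fin (m-1)) (p : Fin n → ℝ) 
    (hp : ∀ i, 0 ≤ p i ∧ p i ≤ 1) (E : (Fin n → Letter m) → Prop) (C ρ : ℝ) (hC : 0 ≤ C) (hρ0 : 0 ≤ ρ) (hρ1 : ρ ≤ 1)
    (hE : ∀ S : Finset (Fin n), (((Flips (fun i => ((decide (1/2 < p i), c i) : Letter m)) S).filter E).card : ℝ) ≤ 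
      C * ρ ^ switches (fun i => ((decide (1/2 < p i), c i) : Letter m)) S * 2 ^ S.card) : 
    ∑ s : Fin n → Bool, (if E (fun i => ((s i, c i) : Letter m)) then ∏ i, (if s i then p i else 1 - p i) else 0) ≤ 
      C * Real.exp (-(2 * (1 - ρ) * ∑ j, ∑ k, if Adj c j k then min (p j) (1 - p j) * min (p k) (1 - p k) else 0)) := by
  rw [h2 m n c p hp E]
  have ht : ∀ i, 0 ≤ 2 * min (p i) (1 - p i) ∧ 2 * min (p i) (1 - p i) ≤ 1 := by
    intro i
    have h3 := (hp i).1
    have h4 := (hp i).2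
    constructor
    · have : 0 ≤ min (p i) (1 - p i) := le_min h3 (by linarith)
      linarith
    · rcases le_total (p i) (1 - p i) with h | h
      · rw [min_eq_left h]; linarith
      · rw [min_eq_right h]; linarith
  have h3 := h1 n (JJ c) (fun j hj => by
    unfold JJ at hj
    rw [Finset.mem_filter] at hj
    obtain ⟨-, k, hk, -⟩ := hj
    have := k.2
    omega) ρ hρ0 hρ1 (fun i => 2 * min (p i) (1 - p i)) ht
  have e1 : ∑ j ∈ JJ c, (2 * min (p j) (1 - p j)) * (2 * min (p (nx j)) (1 - p (nx j))) = 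
      4 * ∑ j, ∑ k, if Adj c j k then min (p j) (1 - p j) * min (p k) (1 - p k) else 0 := by
    rw [← sumJ c (fun j => min (p j) (1 - p j)), Finset.mul_sum]
    exact Finset.sum_congr rfl fun j _ => by ring
  have e2 : (1 - ρ) / 2 * ∑ j ∈ JJ c, (2 * min (p j) (1 - p j)) * (2 * min (p (nx j)) (1 - p (nx j))) = 
      2 * (1 - ρ) * ∑ j, ∑ k, if Adj c j k then min (p j) (1 - p j) * min (p k) (1 - p k) else 0 := by
    rw [e1]; ring
  rw [e2] at h3
  refine le_trans ?_ (mul_le_mul_of_nonneg_left h3 hC)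
  rw [Finset.mul_sum]
  refine Finset.sum_le_sum fun r _ => ?_
  have hw : 0 ≤ wt (fun i => 2 * min (p i) (1 - p i)) r := wt_nonneg (fun i => (ht i).1) (fun i => (ht i).2) r
  have h4 := hE (univ.filter (fun i => r i = true))
  rw [switches_eq c _ r] at h4
  have h5 : ((((Flips (fun i => ((decide (1/2 < p i), c i) : Letter m)) (univ.filter (fun i => r i = true))).filter E).card : ℝ)
          / 2 ^ (univ.filter (fun i => r i = true)).card) ≤ 
        C * ρ ^ ((JJ c).filter (fun j => r j = true ∧ r (nx j) = true)).card := by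
    rw [div_le_iff₀ (by positivity)]
    exact h4
  calc _ ≤ wt (fun i => 2 * min (p i) (1 - p i)) r * 
      (C * ρ ^ ((JJ c).filter (fun j => r j = true ∧ r (nx j) = true)).card) := mul_le_mul_of_nonneg_left h5 hw
    _ = _ := by ring

open Classical in
theorem braids (h1 : S_ONE) (h2 : S_MIX) (m : ℕ) (hm : 3 ≤ m) : ∃ C a : ℝ, 0 ≤ C ∧ 0 < a ∧ 
    ∀ N : ℕ, 2 ≤ N → ∀ (O : Outer m) (g : ℤ[T;T⁻¹]) (n : ℕ) (c : Fin n → Fin (m-1)) (p : Fin n → ℝ), 
      (∀ i, 0 ≤ p i ∧ p i ≤ 1) → 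
      ∑ s : Fin n → Bool, (if (N : ℤ[T;T⁻¹]) ∣ (diagram O (fun i => ((s i, c i) : Letter m))).fPoly - g then 
        ∏ i, (if s i then p i else 1 - p i) else 0) ≤ 
        C * Real.exp (-(a * ∑ j, ∑ k, if Adj c j k then min (p j) (1 - p j) * min (p k) (1 - p k) else 0)) := by
  obtain ⟨r, hr0, hr1, ⟨C, hC⟩, -⟩ := finalS hm
  refine ⟨max C 0, 2 * (1 - r), le_max_right _ _, by linarith, fun N hN O g n c p hp => ?_⟩
  refine cond h1 h2 c p hp (fun w' => (N : ℤ[T;T⁻¹]) ∣ (diagram O w').fPoly - g) (max C 0) r (le_max_right _ _) hr0.le 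
    hr1.le (fun S => ?_)
  refine le_trans (le_of_eq ?_) ((hC N hN O g n (fun i => ((decide (1/2 < p i), c i) : Letter m)) S).trans ?_)
  · congr 1
  · have h3 : 0 < r ^ switches (fun i => ((decide (1/2 < p i), c i) : Letter m)) S := pow_pos hr0 _
    have h4 : (0:ℝ) < 2 ^ S.card := by positivity
    exact mul_le_mul_of_nonneg_right (mul_le_mul_of_nonneg_right (le_max_left _ _) h3.le) h4.le

end Pool.Agent.J4H23.MX
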