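import Pool.Agent.J4H23.MX.Stm

set_option autoImplicit false

namespace Pool.Agent.J4H23.MX

open Finset LaurentPolynomial Pool.Agent.H891R2.Jones Pool.Agent.W639.RB Pool.Agent.Y463.MP Pool.Agent.J4H23.SD

variable {m n : ℕ}

theorem factor (r a s : Fin n → Bool) : 
    (∏ i, ∑ b ∈ Finset.univ.filter (fun b : Bool => (if r i then b else a i) = s i), (1 / 2 : ℝ)) = 
      if (∀ i, r i = false → s i = a i) then (1 / 2 : ℝ) ^ (univ.filter (fun i => r i = true)).card else 0 := by
  classical
  have e : ∀ i, ∑ b ∈ Finset.univ.filter (fun b : Bool => (if r i then b else a i) = s i), (1 / 2 : ℝ) = 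
      if r i = true then (1 / 2 : ℝ) else (if s i = a i then 1 else 0) := by
    intro i
    cases hr : r i <;> cases hs : s i <;> cases ha : a i <;> 
      simp [Finset.filter_true, Finset.filter_false, Finset.filter_eq']
  rw [Finset.prod_congr rfl (fun i _ => e i)]
  by_cases hall : ∀ i, r i = false → s i = a i
  · rw [if_pos hall]
    have e2 : ∀ i, (if r i = true then (1 / 2 : ℝ) else (if s i = a i then 1 else 0)) = 
        if r i = true then (1 / 2 : ℝ) else 1 := by
      intro i
      by_cases hr : r i = true
      · rw [if_pos hr, if_pos hr]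
      · rw [if_neg hr, if_neg hr, if_pos (hall i (by simpa using hr))]
    rw [Finset.prod_congr rfl (fun i _ => e2 i), Finset.prod_ite, Finset.prod_const, Finset.prod_const_one, mul_one]
  · rw [if_neg hall]
    push Not at hall
    obtain ⟨i, hr, hs⟩ := hall
    refine Finset.prod_eq_zero (Finset.mem_univ i) ?_
    rw [if_neg (by rw [hr]; simp), if_neg hs]

open Classical in
theorem card_bij' (c : Fin n → Fin (m-1)) (r a : Fin n → Bool) (E : (Fin n → Letter m) → Prop) : 
    ((Flips (fun i => ((a i, c i) : Letter m)) (univ.filter (fun i => r i = true))).filter E).card = 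
      (univ.filter (fun s : Fin n → Bool => (∀ i, r i = false → s i = a i) ∧ E (fun i => ((s i, c i) : Letter m)))).card := by
  symm
  refine Finset.card_bij (fun s _ => fun i => ((s i, c i) : Letter m)) ?_ ?_ ?_
  · intro s hs
    rw [Finset.mem_filter] at hs
    rw [Finset.mem_filter]
    refine ⟨?_, hs.2.2⟩
    unfold Flips
    rw [Finset.mem_filter]
    refine ⟨Finset.mem_univ _, fun j => rfl, fun j hj => ?_⟩
    have hr : r j = false := by
      by_contra h
      exact hj (Finset.mem_filter.2 ⟨Finset.mem_univ _, by simpa using h⟩)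
    show ((s j, c j) : Letter m) = (a j, c j)
    rw [hs.2.1 j hr]
  · intro s _ s' _ h
    funext i
    exact congrArg Prod.fst (congrFun h i)
  · intro w' hw'
    rw [Finset.mem_filter] at hw'
    obtain ⟨hF, hE⟩ := hw'
    unfold Flips at hF
    rw [Finset.mem_filter] at hF
    obtain ⟨-, h1, h2⟩ := hF
    have e : (fun i => (((w' i).1, c i) : Letter m)) = w' := by
      funext i
      exact Prod.ext rfl (h1 i).symm
    refine ⟨fun i => (w' i).1, ?_, e⟩
    rw [Finset.mem_filter]
    refine ⟨Finset.mem_univ _, fun i hi => ?_, by rw [e]; exact hE⟩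
    have := h2 i (fun h => by
      rw [Finset.mem_filter] at h
      rw [hi] at h
      exact absurd h.2 (by simp))
    show (w' i).1 = a i
    rw [this]

theorem t_MIX : S_MIX := by
  classical
  intro m n c p hp E
  set a : Fin n → Bool := fun i => decide (1/2 < p i) with ha
  set q : Fin n → ℝ := fun i => min (p i) (1 - p i) with hq
  set B : (Fin n → Bool) → ℝ := fun s => if E (fun i => ((s i, c i) : Letter m)) then 1 else 0 with hB
  have hpq : p = fun i => if a i then 1 - q i else q i := by
    funext i
    simp only [ha, hq, decide_eq_true_eq]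
    split_ifs with h
    · rw [min_eq_right (by linarith)]; ring
    · rw [min_eq_left (by linarith)]
  have e1 : ∑ s : Fin n → Bool, (if E (fun i => ((s i, c i) : Letter m)) then ∏ i, (if s i then p i else 1 - p i) else 0) =
      ∑ s, wt p s * B s := by
    refine Finset.sum_congr rfl fun s _ => ?_
    simp only [hB]
    split_ifs
    · rw [mul_one]; rfl
    · rw [mul_zero]
  rw [e1]
  conv_lhs => rw [hpq]
  rw [mixture q a B]
  refine Finset.sum_congr rfl fun r _ => ?_
  congr 1
  have h := push (fun (_ : Fin n) (_ : Bool) => (1 / 2 : ℝ)) (fun i b => if r i then b else a i) B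
  have e2 : ∑ z : Fin n → Bool, (∏ _i : Fin n, (1 / 2 : ℝ)) * B (fun i => if r i then z i else a i) = 
      (1 / 2) ^ Fintype.card (Fin n) * ∑ y, B (mix r y a) := by
    rw [Finset.mul_sum]
    refine Finset.sum_congr rfl fun y _ => ?_
    rw [Finset.prod_const, Finset.card_univ]
    rfl
  rw [← e2, h, Finset.sum_congr rfl (fun s _ => by rw [factor r a s]), card_bij' c r a E]
  have e3 : ∀ s : Fin n → Bool, (if (∀ i, r i = false → s i = a i) then (1 / 2 : ℝ) ^ (univ.filter (fun i => r i = true)).card 
      else 0) * B s = if ((∀ i, r i = false → s i = a i) ∧ E (fun i => ((s i, c i) : Letter m))) then 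
        (1 / 2 : ℝ) ^ (univ.filter (fun i => r i = true)).card else 0 := by
    intro s
    simp only [hB]
    by_cases h1 : ∀ i, r i = false → s i = a i
    · by_cases h2 : E (fun i => ((s i, c i) : Letter m))
      · rw [if_pos h1, if_pos h2, if_pos ⟨h1, h2⟩, mul_one]
      · have h3 : ¬ ((∀ i, r i = false → s i = a i) ∧ E (fun i => ((s i, c i) : Letter m))) := fun hh => h2 (And.right hh)
        rw [if_pos h1, if_neg h2, if_neg h3, mul_zero]
    · have h3 : ¬ ((∀ i, r i = false → s i = a i) ∧ E (fun i => ((s i, c i) : Letter m))) := fun hh => h1 (And.left hh)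
      rw [if_neg h1, if_neg h3, zero_mul]
  rw [Finset.sum_congr rfl (fun s _ => e3 s), ← Finset.sum_filter, Finset.sum_const, nsmul_eq_mul, one_div, inv_pow, 
    ← div_eq_mul_inv]

end Pool.Agent.J4H23.MX
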