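import Pool.Agent.J4H23.MX.Stm

set_option autoImplicit false

namespace Pool.Agent.J4H23.MX

open Finset Pool.Agent.J4H23.SD

variable {n : ℕ}

/-- the factor of the pair `{j, nx j}` -/
noncomputable def ff (ρ : ℝ) (j : Fin n) (r : Fin n → Bool) : ℝ := if r j = true ∧ r (nx j) = true then ρ else 1

theorem ff_upd (ρ : ℝ) (j i : Fin n) (h1 : i ≠ j) (h2 : i ≠ nx j) (r : Fin n → Bool) (b : Bool) : 
    ff ρ j (Function.update r i b) = ff ρ j r := by
  unfold ff
  rw [Function.update_of_ne h1.symm, Function.update_of_ne h2.symm]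

theorem one_pair (ρ : ℝ) (t : Fin n → ℝ) (j : Fin n) (hj : nx j ≠ j) (G : (Fin n → Bool) → ℝ) 
    (hG : ∀ r b, G (Function.update r j b) = G r) (hG' : ∀ r b, G (Function.update r (nx j) b) = G r) : 
    ∑ r, wt t r * (ff ρ j r * G r) = (1 - (1 - ρ) * (t j * t (nx j))) * ∑ r, wt t r * G r := by
  classical
  rw [avg t j, Finset.mul_sum]
  have e2 : ∀ r : Fin n → Bool, wt t r * (t j * (ff ρ j (Function.update r j true) * G (Function.update r j true)) + 
      (1 - t j) * (ff ρ j (Function.update r j false) * G (Function.update r j false))) = 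
      wt t r * ((t j * (if r (nx j) = true then ρ else 1) + (1 - t j)) * G r) := by
    intro r
    rw [hG, hG]
    unfold ff
    rw [Function.update_self, Function.update_self, Function.update_of_ne hj, Function.update_of_ne hj]
    by_cases hh : r (nx j) = true
    · simp [hh]
      ring_nf
      tauto
    · simp [hh]
      ring_nf
      tauto
  rw [Finset.sum_congr rfl (fun r _ => e2 r), avg t (nx j)]
  refine Finset.sum_congr rfl fun r _ => ?_
  rw [hG', hG', Function.update_self, Function.update_self]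
  simp
  ring

theorem all_pairs (ρ : ℝ) (t : Fin n → ℝ) (J : Finset (Fin n)) : (∀ j ∈ J, nx j ≠ j) → 
    (∀ j ∈ J, ∀ k ∈ J, j ≠ k → nx j ≠ k ∧ nx j ≠ nx k) → 
    ∑ r, wt t r * ∏ j ∈ J, ff ρ j r = ∏ j ∈ J, (1 - (1 - ρ) * (t j * t (nx j))) := by
  classical
  induction J using Finset.induction_on with
  | empty => intro _ _; simp only [Finset.prod_empty, mul_one]; exact sum_wt t
  | insert a J ha ih =>
    intro h1 h2
    have ih' := ih (fun j hj => h1 j (Finset.mem_insert_of_mem hj)) 
      (fun j hj k hk => h2 j (Finset.mem_insert_of_mem hj) k (Finset.mem_insert_of_mem hk))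
    rw [Finset.prod_insert ha, ← ih', ← one_pair ρ t a (h1 a (Finset.mem_insert_self _ _)) 
      (fun r => ∏ j ∈ J, ff ρ j r)]
    · exact Finset.sum_congr rfl fun r _ => by rw [Finset.prod_insert ha]
    · intro r b
      refine Finset.prod_congr rfl fun j hj => ff_upd ρ j a ?_ ?_ r b
      · rintro rfl; exact ha hj
      · have hne : j ≠ a := by rintro rfl; exact ha hj
        exact ((h2 j (Finset.mem_insert_of_mem hj) a (Finset.mem_insert_self _ _) hne).1).symm
    · intro r b
      have hne : ∀ j ∈ J, a ≠ j := by rintro j hj rfl; exact ha hj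
      refine Finset.prod_congr rfl fun j hj => ff_upd ρ j (nx a) ?_ ?_ r b
      · exact (h2 a (Finset.mem_insert_self _ _) j (Finset.mem_insert_of_mem hj) (hne j hj)).1
      · exact (h2 a (Finset.mem_insert_self _ _) j (Finset.mem_insert_of_mem hj) (hne j hj)).2

theorem half_one (J : Finset (Fin n)) (hJ : ∀ j ∈ J, (j : ℕ) + 1 < n) (ρ : ℝ) (h0 : 0 ≤ ρ) (h1 : ρ ≤ 1) 
    (t : Fin n → ℝ) (ht : ∀ i, 0 ≤ t i ∧ t i ≤ 1) (b : ℕ) : 
    ∑ r : Fin n → Bool, wt t r * ρ ^ (J.filter (fun j => r j = true ∧ r (nx j) = true)).card ≤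
      Real.exp (-((1 - ρ) * ∑ j ∈ J.filter (fun j : Fin n => (j : ℕ) % 2 = b), t j * t (nx j))) := by
  classical
  set J' := J.filter (fun j : Fin n => (j : ℕ) % 2 = b) with hJ'
  have hnx : ∀ j ∈ J', ((nx j : Fin n) : ℕ) = (j : ℕ) + 1 := by
    intro j hj
    rw [hJ', Finset.mem_filter] at hj
    unfold nx
    rw [dif_pos (hJ j hj.1)]
  have hpar : ∀ j ∈ J', (j : ℕ) % 2 = b := fun j hj => (Finset.mem_filter.1 hj).2
  have h3 := all_pairs ρ t J' (fun j hj h => by
    have := hnx j hj
    rw [h] at this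
    omega) (fun j hj k hk hne => by
    have e1 := hnx j hj
    have e2 := hnx k hk
    have e3 := hpar j hj
    have e4 := hpar k hk
    constructor
    · intro h
      rw [h] at e1
      omega
    · intro h
      rw [h, e2] at e1
      exact hne (Fin.ext (by omega)))
  calc ∑ r : Fin n → Bool, wt t r * ρ ^ (J.filter (fun j => r j = true ∧ r (nx j) = true)).card 
      ≤ ∑ r : Fin n → Bool, wt t r * ∏ j ∈ J', ff ρ j r := by
        refine Finset.sum_le_sum fun r _ => ?_
        refine mul_le_mul_of_nonneg_left ?_ (wt_nonneg (fun i => (ht i).1) (fun i => (ht i).2) r)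
        have e : ∏ j ∈ J', ff ρ j r = ρ ^ (J'.filter (fun j => r j = true ∧ r (nx j) = true)).card := by
          unfold ff
          rw [Finset.prod_ite, Finset.prod_const, Finset.prod_const_one, mul_one]
        rw [e]
        exact pow_le_pow_of_le_one h0 h1 (Finset.card_le_card 
          (Finset.filter_subset_filter _ (Finset.filter_subset _ _)))
    _ = ∏ j ∈ J', (1 - (1 - ρ) * (t j * t (nx j))) := h3
    _ ≤ ∏ j ∈ J', Real.exp (-((1 - ρ) * (t j * t (nx j)))) := by
        refine Finset.prod_le_prod (fun j _ => ?_) (fun j _ => ?_)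
        · have e1 := ht j
          have e2 := ht (nx j)
          have e3 : t j * t (nx j) ≤ 1 := mul_le_one₀ e1.2 e2.1 e2.2
          have e4 : 0 ≤ t j * t (nx j) := mul_nonneg e1.1 e2.1
          nlinarith
        · have := Real.add_one_le_exp (-((1 - ρ) * (t j * t (nx j))))
          linarith
    _ = _ := by
        rw [← Real.exp_sum, Finset.sum_neg_distrib, Finset.mul_sum]

theorem t_ONE : S_ONE := by
  classical
  intro n J hJ ρ h0 h1 t ht
  have hsplit : ∑ j ∈ J, t j * t (nx j) = ∑ j ∈ J.filter (fun j : Fin n => (j : ℕ) % 2 = 0), t j * t (nx j) + 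
      ∑ j ∈ J.filter (fun j : Fin n => (j : ℕ) % 2 = 1), t j * t (nx j) := by
    rw [← Finset.sum_filter_add_sum_filter_not J (fun j : Fin n => (j : ℕ) % 2 = 0)]
    congr 1
    refine Finset.sum_congr ?_ fun _ _ => rfl
    ext j
    simp only [Finset.mem_filter]
    constructor
    · rintro ⟨h1, h2⟩; exact ⟨h1, by omega⟩
    · rintro ⟨h1, h2⟩; exact ⟨h1, by omega⟩
  rcases le_total (∑ j ∈ J.filter (fun j : Fin n => (j : ℕ) % 2 = 0), t j * t (nx j)) 
    (∑ j ∈ J.filter (fun j : Fin n => (j : ℕ) % 2 = 1), t j * t (nx j)) with h | h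
  · refine (half_one J hJ ρ h0 h1 t ht 1).trans (Real.exp_le_exp.2 ?_)
    have : 0 ≤ 1 - ρ := by linarith
    rw [hsplit]
    nlinarith
  · refine (half_one J hJ ρ h0 h1 t ht 0).trans (Real.exp_le_exp.2 ?_)
    have : 0 ≤ 1 - ρ := by linarith
    rw [hsplit]
    nlinarith

end Pool.Agent.J4H23.MX
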