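import Pool.Agent.J4H23.MX.Fin
import Pool.Agent.J4H23.MX.One
import Pool.Agent.J4H23.MX.Mix
import Pool.Agent.W705.JR.Vas

set_option autoImplicit false

namespace Pool.Agent.J4H23.MX

open Finset LaurentPolynomial Pool.Agent.H891R2.Jones Pool.Agent.W639.RB Pool.Agent.Y463.MP Pool.Agent.J4H23.SD
  Pool.Agent.H832R3.VJ

theorem ht_min {t : ℝ} (h3 : 0 ≤ t) (h4 : t ≤ 1) : 0 ≤ 2 * min t (1 - t) ∧ 2 * min t (1 - t) ≤ 1 := by
  constructor
  · have : 0 ≤ min t (1 - t) := le_min h3 (by linarith)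
    linarith
  · rcases le_total t (1 - t) with h | h
    · rw [min_eq_left h]; linarith
    · rw [min_eq_right h]; linarith

open Classical in
/-- events whose conditional probability is small if there are many switches -/
theorem cond2 {m n : ℕ} (c : Fin n → Fin (m-1)) (p : Fin n → ℝ) (ε : ℝ) (hε : 0 < ε)
    (hp : ∀ i, ε ≤ p i ∧ p i ≤ 1 - ε) (E : (Fin n → Letter m) → Prop) (C ρ θ : ℝ) (hC : 0 ≤ C) (hρ0 : 0 < ρ) (hρ1 : ρ < 1)
    (hθ : θ * (- Real.log ρ) = (1 - ρ) * ε ^ 2)
    (hE : ∀ S : Finset (Fin n), θ * (JJ c).card ≤ switches (fun i => ((decide (1/2 < p i), c i) : Letter m)) S → 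
      (((Flips (fun i => ((decide (1/2 < p i), c i) : Letter m)) S).filter E).card : ℝ) ≤ 
      C * ρ ^ switches (fun i => ((decide (1/2 < p i), c i) : Letter m)) S * 2 ^ S.card) : 
    ∑ s : Fin n → Bool, (if E (fun i => ((s i, c i) : Letter m)) then ∏ i, (if s i then p i else 1 - p i) else 0) ≤ 
      (C + 1) * Real.exp (-((1 - ρ) * ε ^ 2)) ^ (JJ c).card := by
  have hp01 : ∀ i, 0 ≤ p i ∧ p i ≤ 1 := fun i => ⟨by linarith [(hp i).1], by linarith [(hp i).2]⟩
  rw [t_MIX m n c p hp01 E]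
  have ht : ∀ i, 0 ≤ 2 * min (p i) (1 - p i) ∧ 2 * min (p i) (1 - p i) ≤ 1 := fun i => ht_min (hp01 i).1 (hp01 i).2
  have h3 := t_ONE n (JJ c) (fun j hj => by
    unfold JJ at hj
    rw [Finset.mem_filter] at hj
    obtain ⟨-, k, hk, -⟩ := hj
    have := k.2
    omega) ρ hρ0.le hρ1.le (fun i => 2 * min (p i) (1 - p i)) ht
  set s := (JJ c).card with hs
  set wr : (Fin n → Bool) → ℝ := fun r => wt (fun i => 2 * min (p i) (1 - p i)) r with hwr
  have hw : ∀ r, 0 ≤ wr r := fun r => wt_nonneg (fun i => (ht i).1) (fun i => (ht i).2) r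
  have hw1 : ∑ r, wr r = 1 := sum_wt _
  set sr : (Fin n → Bool) → ℕ := fun r => ((JJ c).filter (fun j => r j = true ∧ r (nx j) = true)).card with hsr
  set b : ℝ := (1 - ρ) * ε ^ 2 with hb
  have hb0 : 0 ≤ b := mul_nonneg (by linarith) (sq_nonneg _)
  have e1 : b * s * 2 ≤ (1 - ρ) / 2 * ∑ j ∈ JJ c, (2 * min (p j) (1 - p j)) * (2 * min (p (nx j)) (1 - p (nx j))) := by
    have h4 : 4 * ε ^ 2 * s ≤ ∑ j ∈ JJ c, (2 * min (p j) (1 - p j)) * (2 * min (p (nx j)) (1 - p (nx j))) := by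
      have h5 : ∑ j ∈ JJ c, (4 * ε ^ 2) ≤ ∑ j ∈ JJ c, (2 * min (p j) (1 - p j)) * (2 * min (p (nx j)) (1 - p (nx j))) := by
        refine Finset.sum_le_sum fun j _ => ?_
        have h6 : ∀ i, 2 * ε ≤ 2 * min (p i) (1 - p i) := fun i => by
          have : ε ≤ min (p i) (1 - p i) := le_min (hp i).1 (by linarith [(hp i).2])
          linarith
        have h7 := mul_le_mul (h6 j) (h6 (nx j)) (by linarith) (ht j).1
        linarith
      rw [Finset.sum_const, nsmul_eq_mul] at h5
      linarith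
    have h8 : 0 ≤ (1 - ρ) / 2 := by linarith
    have h9 := mul_le_mul_of_nonneg_left h4 h8
    rw [hb]
    linarith
  have e2 : ∑ r, wr r * ρ ^ sr r ≤ Real.exp (-(b * s * 2)) := h3.trans (Real.exp_le_exp.2 (by linarith))
  have hlog : ∀ k : ℕ, ρ ^ k = Real.exp (Real.log ρ * k) := by
    intro k
    rw [Real.exp_mul, Real.exp_log hρ0, Real.rpow_natCast]
  have hlneg : Real.log ρ < 0 := Real.log_neg hρ0 hρ1
  have key : ∀ r : Fin n → Bool, 
      ((((Flips (fun i => ((decide (1/2 < p i), c i) : Letter m)) (univ.filter (fun i => r i = true))).filter E).card : ℝ)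
          / 2 ^ (univ.filter (fun i => r i = true)).card) ≤ 
        C * Real.exp (-(b * s)) + Real.exp (b * s) * ρ ^ sr r := by
    intro r
    have hsw := switches_eq c (fun i => decide (1/2 < p i)) r
    have hpos : 0 ≤ C * Real.exp (-(b * s)) := mul_nonneg hC (Real.exp_pos _).le
    have hpos2 : 0 ≤ Real.exp (b * s) * ρ ^ sr r := mul_nonneg (Real.exp_pos _).le (pow_pos hρ0 _).le
    by_cases hcase : θ * s ≤ sr r
    · have h4 := hE (univ.filter (fun i => r i = true)) (by rw [hsw]; exact hcase)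
      rw [hsw] at h4
      have h5 : ρ ^ sr r ≤ Real.exp (-(b * s)) := by
        rw [hlog]
        apply Real.exp_le_exp.2
        have h6 : Real.log ρ * sr r ≤ Real.log ρ * (θ * s) := mul_le_mul_of_nonpos_left hcase hlneg.le
        have h7 : Real.log ρ * (θ * s) = -(b * s) := by
          have : Real.log ρ * (θ * s) = -(θ * (- Real.log ρ)) * s := by ring
          rw [this, hθ]; ring
        linarith
      rw [div_le_iff₀ (by positivity)]
      have h8 : C * ρ ^ sr r ≤ C * Real.exp (-(b * s)) + Real.exp (b * s) * ρ ^ sr r := by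
        have := mul_le_mul_of_nonneg_left h5 hC
        linarith
      exact h4.trans (mul_le_mul_of_nonneg_right h8 (by positivity))
    · push Not at hcase
      have h4 : ((((Flips (fun i => ((decide (1/2 < p i), c i) : Letter m)) (univ.filter (fun i => r i = true))).filter E).card : ℝ)
          / 2 ^ (univ.filter (fun i => r i = true)).card) ≤ 1 := by
        rw [div_le_iff₀ (by positivity), one_mul, ← card_Flips (fun i => ((decide (1/2 < p i), c i) : Letter m))]
        exact_mod_cast Finset.card_le_card (Finset.filter_subset _ _)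
      have h5 : 1 ≤ Real.exp (b * s) * ρ ^ sr r := by
        rw [hlog, ← Real.exp_add]
        apply Real.one_le_exp
        have h6 : Real.log ρ * (θ * s) ≤ Real.log ρ * sr r := mul_le_mul_of_nonpos_left hcase.le hlneg.le
        have h7 : Real.log ρ * (θ * s) = -(b * s) := by
          have : Real.log ρ * (θ * s) = -(θ * (- Real.log ρ)) * s := by ring
          rw [this, hθ]; ring
        linarith
      linarith
  calc _ ≤ ∑ r, wr r * (C * Real.exp (-(b * s)) + Real.exp (b * s) * ρ ^ sr r) := 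
        Finset.sum_le_sum fun r _ => mul_le_mul_of_nonneg_left (key r) (hw r)
    _ = C * Real.exp (-(b * s)) + Real.exp (b * s) * ∑ r, wr r * ρ ^ sr r := by
        simp only [mul_add, Finset.sum_add_distrib]
        rw [← Finset.sum_mul, hw1, one_mul, Finset.mul_sum]
        congr 1
        exact Finset.sum_congr rfl fun r _ => by ring
    _ ≤ C * Real.exp (-(b * s)) + Real.exp (b * s) * Real.exp (-(b * s * 2)) := by
        have := mul_le_mul_of_nonneg_left e2 (Real.exp_pos (b * s)).le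
        linarith
    _ = (C + 1) * Real.exp (-b) ^ s := by
        rw [← Real.exp_add, ← Real.exp_nat_mul]
        have h10 : b * s + -(b * s * 2) = -(b * s) := by ring
        have h11 : (s : ℝ) * -b = -(b * s) := by ring
        rw [h10, h11]; ring

open Classical in
/-- with large probability the diagram has not the bracket of a small diagram -/
theorem short (m : ℕ) (hm : 3 ≤ m) (κ ε : ℝ) (hε : 0 < ε) : ∃ δ C r : ℝ, 0 < δ ∧ δ ≤ 1 ∧ 0 < r ∧ r < 1 ∧ 
    ∀ (O : Outer m) (n : ℕ) (c : Fin n → Fin (m-1)) (p : Fin n → ℝ), (∀ i, ε ≤ p i ∧ p i ≤ 1 - ε) → 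
      (osize O + n : ℝ) ≤ κ * ((JJ c).card + 1) → 
      ∑ s : Fin n → Bool, (if (∃ (P : Type) (_ : Finite P) (D : Diagram P), (dsize D : ℝ) ≤ δ * (JJ c).card ∧ 
          ((2:ℕ) : ℤ[T;T⁻¹]) ∣ (diagram O (fun i => ((s i, c i) : Letter m))).fPoly - D.fPoly) then 
        ∏ i, (if s i then p i else 1 - p i) else 0) ≤ C * r ^ (JJ c).card := by
  obtain ⟨ρ, hρ0, hρ1, -, h2⟩ := finalS hm
  have hlneg : Real.log ρ < 0 := Real.log_neg hρ0 hρ1
  set θ : ℝ := (1 - ρ) * ε ^ 2 / (- Real.log ρ) with hθ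
  have hb0 : 0 < (1 - ρ) * ε ^ 2 := mul_pos (by linarith) (by positivity)
  have hθ0 : 0 < θ := div_pos hb0 (by linarith)
  have hθe : θ * (- Real.log ρ) = (1 - ρ) * ε ^ 2 := by
    rw [hθ]
    exact div_mul_cancel₀ _ (by linarith : -Real.log ρ > 0).ne'
  set κ' : ℝ := max κ 0 * (1 / θ + 1) with hκ'
  obtain ⟨δ, hδ, C, hC⟩ := h2 2 le_rfl κ'
  obtain ⟨η, hη, C', hC'⟩ := shortS ρ hρ0 hρ1 2 κ' δ hδ C hC
  refine ⟨min (η * θ) 1, max C' 0 + 1, Real.exp (-((1 - ρ) * ε ^ 2)), lt_min (mul_pos hη hθ0) one_pos, min_le_right _ _, 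
    Real.exp_pos _, by
      have h0 := Real.exp_lt_exp.2 (show -((1 - ρ) * ε ^ 2) < 0 by linarith)
      rwa [Real.exp_zero] at h0, fun O n c p hp hO => ?_⟩
  refine cond2 c p ε hε hp (fun w' => ∃ (P : Type) (_ : Finite P) (D : Diagram P), 
    (dsize D : ℝ) ≤ min (η * θ) 1 * (JJ c).card ∧ ((2:ℕ) : ℤ[T;T⁻¹]) ∣ (diagram O w').fPoly - D.fPoly) 
    (max C' 0) ρ θ (le_max_right _ _) hρ0 hρ1 hθe (fun S hS => ?_)
  set w : Fin n → Letter m := fun i => ((decide (1/2 < p i), c i) : Letter m) with hw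
  have hcond : (osize O + n : ℝ) ≤ κ' * (switches w S + 1) := by
    have h3 : ((JJ c).card : ℝ) ≤ switches w S / θ := by
      rw [le_div_iff₀ hθ0]; linarith
    have h4 : κ * ((JJ c).card + 1) ≤ max κ 0 * ((JJ c).card + 1) := 
      mul_le_mul_of_nonneg_right (le_max_left _ _) (by positivity)
    have h5 : ((JJ c).card : ℝ) + 1 ≤ (1 / θ + 1) * (switches w S + 1) := by
      have h6 : 0 < 1 / θ := by positivity
      have h7 : (switches w S : ℝ) / θ = 1 / θ * switches w S := by ring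
      have h8 : (0:ℝ) ≤ switches w S := by positivity
      rw [h7] at h3
      nlinarith
    have h6 : max κ 0 * ((JJ c).card + 1) ≤ max κ 0 * ((1 / θ + 1) * (switches w S + 1)) := 
      mul_le_mul_of_nonneg_left h5 (le_max_right _ _)
    calc (osize O + n : ℝ) ≤ κ * ((JJ c).card + 1) := hO
      _ ≤ _ := h4
      _ ≤ _ := h6
      _ = κ' * (switches w S + 1) := by rw [hκ']; ring
  have h9 := hC' O n w S hcond
  have h10 : (((Flips w S).filter (fun w' => ∃ (P : Type) (_ : Finite P) (D : Diagram P), 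
    (dsize D : ℝ) ≤ min (η * θ) 1 * (JJ c).card ∧ ((2:ℕ) : ℤ[T;T⁻¹]) ∣ (diagram O w').fPoly - D.fPoly)).card : ℝ) ≤ 
      ((@Finset.filter _ (fun w' => ∃ (P : Type) (_ : Finite P) (D : Diagram P), 
          (dsize D : ℝ) ≤ η * switches w S ∧ ((2:ℕ) : ℤ[T;T⁻¹]) ∣ (diagram O w').fPoly - D.fPoly) 
          (fun _ => Classical.propDecidable _) (Flips w S)).card : ℝ) := by
    have h11 : (Flips w S).filter (fun w' => ∃ (P : Type) (_ : Finite P) (D : Diagram P), 
      (dsize D : ℝ) ≤ min (η * θ) 1 * (JJ c).card ∧ ((2:ℕ) : ℤ[T;T⁻¹]) ∣ (diagram O w').fPoly - D.fPoly) ⊆ 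
      (@Finset.filter _ (fun w' => ∃ (P : Type) (_ : Finite P) (D : Diagram P), 
          (dsize D : ℝ) ≤ η * switches w S ∧ ((2:ℕ) : ℤ[T;T⁻¹]) ∣ (diagram O w').fPoly - D.fPoly) 
          (fun _ => Classical.propDecidable _) (Flips w S)) := by
      intro x hx
      rw [Finset.mem_filter] at hx ⊢
      obtain ⟨hx1, P, hP, D, hD1, hD2⟩ := hx
      refine ⟨hx1, P, hP, D, ?_, hD2⟩
      calc (dsize D : ℝ) ≤ min (η * θ) 1 * (JJ c).card := hD1
        _ ≤ (η * θ) * (JJ c).card := mul_le_mul_of_nonneg_right (min_le_left _ _) (by positivity)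
        _ = η * (θ * (JJ c).card) := by ring
        _ ≤ η * switches w S := mul_le_mul_of_nonneg_left hS hη.le
    exact_mod_cast Finset.card_le_card h11
  refine h10.trans (h9.trans ?_)
  have h12 : 0 < ρ ^ switches w S := pow_pos hρ0 _
  exact mul_le_mul_of_nonneg_right (mul_le_mul_of_nonneg_right (le_max_left _ _) h12.le) (by positivity)

end Pool.Agent.J4H23.MX
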