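import Pool.Agent.J4H23.SD.Main
import Pool.Agent.J4H2.SD.Tw

set_option autoImplicit false

/-! Random crossings in any knot shadow: the Jones polynomial up to terms of third order. -/

namespace Pool.Agent.J4H23.MX

open Finset LaurentPolynomial Pool.Agent.H832R3.VJ Pool.Agent.H891R2.Jones Pool.Agent.R811.Cross Pool.Agent.J4H23.SD

variable {n : ℕ}

theorem mainF (G : Shadow n) (q p : Fin n → ℝ) (hq : ∀ i, 0 ≤ q i)
    (hp : ∀ i, q i ≤ p i ∧ p i ≤ 1 - q i) (g : ℤ[T;T⁻¹]) {ν : ℕ} (u w : Fin ν → Fin n)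
    (hinj : Function.Injective (Sum.elim u w)) (h : ∀ k, G.Interlaced (u k) (w k)) :
    (∑ k, q (u k) * q (w k)) * prob p {s | (T 1 - 1 : ℤ[T;T⁻¹]) ^ 3 ∣ (G.diagram s).fPoly - g} ^ 4 ≤ 41 := by
  classical
  have p0 : ∀ i, 0 ≤ p i := fun i => (hq i).trans (hp i).1
  have p1 : ∀ i, p i ≤ 1 := fun i => by have := (hp i).2; have := hq i; linarith
  have h1 := level_prod (F G) (moment 2 g) u w hinj (fun i j hij x y => D2_const G hij x y)
    (fun k x => by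
      have hne := (ne_of_interlaced G (h k)).symm
      rw [D_comm hne.symm]
      exact D2 G (h k) x) q p hq hp
  have h2 : prob p {s | (T 1 - 1 : ℤ[T;T⁻¹]) ^ 3 ∣ (G.diagram s).fPoly - g} ≤
      ∑ s ∈ Finset.univ.filter (fun s => F G s = moment 2 g), wt p s := by
    unfold prob
    rw [Finset.sum_filter]
    refine Finset.sum_le_sum fun s _ => ?_
    by_cases hs : s ∈ {s : Fin n → Bool | (T 1 - 1 : ℤ[T;T⁻¹]) ^ 3 ∣ (G.diagram s).fPoly - g}
    · have h3 : F G s = moment 2 g := by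
        have h4 := moment_of_dvd 2 _ hs
        rw [m_sub] at h4
        unfold F
        omega
      rw [if_pos hs, if_pos h3]
      exact le_rfl
    · rw [if_neg hs]
      split_ifs
      · exact wt_nonneg p0 p1 s
      · exact le_rfl
  refine le_trans (mul_le_mul_of_nonneg_left
    (pow_le_pow_left₀ (prob_nonneg p0 p1 _) h2 4) ?_) h1
  exact Finset.sum_nonneg fun k _ => mul_nonneg (hq _) (hq _)

theorem mainF2 (G : Shadow n) (q p : Fin n → ℝ) (hq : ∀ i, 0 ≤ q i)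
    (hp : ∀ i, q i ≤ p i ∧ p i ≤ 1 - q i) (g : ℤ[T;T⁻¹]) (hred : ∀ i, ∃ j, G.Interlaced i j) (T' : Finset (Fin n))
    (hT : ∀ i ∈ T', ∀ j ∈ T', Relation.EqvGen G.Antiparallel i j → i = j)
    (ε : ℝ) (hε : 0 ≤ ε) (hεq : ∀ i, ε ≤ q i) :
    ε ^ 2 * T'.card * prob p {s | (T 1 - 1 : ℤ[T;T⁻¹]) ^ 3 ∣ (G.diagram s).fPoly - g} ^ 4 ≤ 410 := by
  obtain ⟨ν, u, w, hinj, h, hcard⟩ := Pool.Agent.J4H2.SD.t_TW G hred T' hT
  have h1 := mainF G q p hq hp g u w hinj h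
  have h2 : ε ^ 2 * ν ≤ ∑ k, q (u k) * q (w k) := by
    calc ε ^ 2 * ν = ∑ _k : Fin ν, ε * ε := by
          rw [Finset.sum_const, Finset.card_univ, Fintype.card_fin, nsmul_eq_mul]; ring
      _ ≤ _ := Finset.sum_le_sum fun k _ => mul_le_mul (hεq _) (hεq _) hε (hq _)
  have h3 : (T'.card : ℝ) ≤ 10 * ν := by exact_mod_cast hcard
  set P := prob p {s | (T 1 - 1 : ℤ[T;T⁻¹]) ^ 3 ∣ (G.diagram s).fPoly - g} with hP
  have hP4 : 0 ≤ P ^ 4 := by positivity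
  calc ε ^ 2 * T'.card * P ^ 4 ≤ ε ^ 2 * (10 * ν) * P ^ 4 :=
        mul_le_mul_of_nonneg_right (mul_le_mul_of_nonneg_left h3 (sq_nonneg ε)) hP4
    _ = 10 * ((ε ^ 2 * ν) * P ^ 4) := by ring
    _ ≤ 10 * ((∑ k, q (u k) * q (w k)) * P ^ 4) := by
        have := mul_le_mul_of_nonneg_right h2 hP4
        linarith
    _ ≤ 410 := by linarith

end Pool.Agent.J4H23.MX
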