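import Pool.Agent.Y463.MP.SgnFin
import Pool.Agent.J4H23.SD.Prob

/-!
# Project MX: smoothed analysis of the Jones unknot problem (MP_42db45_gt, very_famous, x25)
-/

set_option autoImplicit false

namespace Pool.Agent.J4H23.MX

open Finset LaurentPolynomial Pool.Agent.H891R2.Jones Pool.Agent.W639.RB Pool.Agent.Y463.MP Pool.Agent.J4H23.SD

/-- the next position -/
def nx {n : ℕ} (j : Fin n) : Fin n := if h : (j : ℕ) + 1 < n then ⟨j + 1, h⟩ else j

/-- (ONE) Proof: split `J` into the even and the odd `j`; one of the two parts `J'` has at least half of the sum; the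
pairs `{j, nx j}`, `j ∈ J'`, are disjoint.  `ρ ^ card (J.filter ..) ≤ ρ ^ card (J'.filter ..) = ∏ j ∈ J', (if r j ∧ r (nx j)
then ρ else 1)`, whose mean is `∏ j ∈ J', (1 - (1-ρ) t j t (nx j)) ≤ exp (-(1-ρ) ∑ ..)`: induction on `J'`, with
`avg` (J4H23/SD/Prob.lean: averaging over one coordinate) applied to the coordinates `j` and `nx j`. -/
def S_ONE : Prop := ∀ (n : ℕ) (J : Finset (Fin n)), (∀ j ∈ J, (j : ℕ) + 1 < n) → ∀ (ρ : ℝ), 0 ≤ ρ → ρ ≤ 1 →
    ∀ t : Fin n → ℝ, (∀ i, 0 ≤ t i ∧ t i ≤ 1) →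
    ∑ r : Fin n → Bool, wt t r * ρ ^ (J.filter (fun j => r j = true ∧ r (nx j) = true)).card ≤
      Real.exp (-((1 - ρ) / 2 * ∑ j ∈ J, t j * t (nx j)))

open Classical in
/-- (MIX) Proof: `mixture` (J4H23/SD/Prob.lean) with `q i = min (p i) (1 - p i)`, `a i = decide (1/2 < p i)`,
`B s = if E (fun i => (s i, c i)) then 1 else 0`; for fixed `r` the map `y ↦ (mix r y a, c)` from the cube to the `Flips`
has all fibres of size `2 ^ (n - |S|)`, `S = {i | r i}`. -/
def S_MIX : Prop := ∀ (m n : ℕ) (c : Fin n → Fin (m-1)) (p : Fin n → ℝ), (∀ i, 0 ≤ p i ∧ p i ≤ 1) →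
    ∀ (E : (Fin n → Letter m) → Prop),
    ∑ s : Fin n → Bool, (if E (fun i => ((s i, c i) : Letter m)) then ∏ i, (if s i then p i else 1 - p i) else 0) =
      ∑ r : Fin n → Bool, wt (fun i => 2 * min (p i) (1 - p i)) r *
        ((((Flips (fun i => ((decide (1/2 < p i), c i) : Letter m)) (univ.filter (fun i => r i = true))).filter E).card : ℝ)
          / 2 ^ (univ.filter (fun i => r i = true)).card)

end Pool.Agent.J4H23.MX
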